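import Pool.Agent.H11.ZDE.All
import Pool.Agent.H36.ZDE.RUL

/-!
# Delanoy's descent conjecture for zircons, all types `A_n`, `D_n`, `E_6`, `E_7`, `E_8`

The definitions used in the statement (`Bru`, `Cov`, `Ic`, `SM`, `Zircon`, `matD`, `IsADE`) are in
`Pool/Agent/H11/ZDE/Defs.lean`; the Coxeter groups are those of Mathlib (`CoxeterSystem`).
-/

namespace Pool.Agent.Results.MP_92a1a0_co.DescentADE

open Pool.Agent.H11.ZDE Pool.Agent.H22.ZDE

/-- **Theorem.** Let `(W, S)` be a Coxeter system of type `A_n` (`n ≥ 1`), `D_n` (`n ≥ 4`), `E_6`, `E_7` or `E_8`.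
For every zircon `[u, w]` in `W` with `u < w` there is a simple reflection `s` with `s w < w` such that
`s w` is not above `u` or `s u > u`. -/
theorem result {B : Type*} {M : CoxeterMatrix B} (hM : IsADE M) {W : Type*} [Group W] (cs : CoxeterSystem M W)
    (u w : W) (huw : Bru cs u w) (hne : u ≠ w) (hz : Zircon cs u w) :
    ∃ i : B, cs.length (cs.simple i * w) < cs.length w ∧
      (¬ Bru cs u (cs.simple i * w) ∨ cs.length u < cs.length (cs.simple i * u)) := by
  classical
  have hfin : Nonempty (Fintype B) := by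
    rcases hM with ⟨n, _, e, _⟩ | ⟨n, _, e, _⟩ | ⟨e, _⟩ | ⟨e, _⟩ | ⟨e, _⟩
    all_goals exact ⟨Fintype.ofEquiv _ e.symm⟩
  obtain ⟨_⟩ := hfin
  have hP : PosDef M := pd_of_isADE M hM
  have hS : Simp M (RLat hP) (fun i => (Pi.single i 1 : B → ℤ)) :=
    Simp.of_cart rfl hP.sl (fun i j => RLat_Q_single hP i j)
  let G := geo cs hS
  refine descent_of G (fun S => main_all S) (fun u w h => ?_) u w huw hne hz
  have hG := Pool.Agent.H58.ZDE.grad G
  have hC := Pool.Agent.H58.ZDE.cov_stmt G
  have hD := Pool.Agent.H58.ZDE.diamond G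
  have hE := lemmaE G hG hC hD (KMod.khard_stmt G) (KMod.klong_stmt G)
  exact RUL.wRules_of hE hC (KMod.cn_stmt G) h

end Pool.Agent.Results.MP_92a1a0_co.DescentADE
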